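import Pool.Agent.X136.GT.Ana2

set_option autoImplicit false

/-!
# Moment lower bounds for bootstrap percolation thresholds on Galton-Watson trees

We prove the conjectured bound `p_c(T_ξ, r) ≥ c_{r,α} (E ξ^{1+α})^{-1/α}` for all `r ≥ 3` and all
`α ∈ (1, r - 1]`, for all offspring laws.  This answers Q1 of MP_0cce6e_pr affirmatively.

Definitions from `Pool.Agent.X136.GT.Defs`: `InTree Z u` says that the word `u` is a vertex of the
tree in which the vertex `v` has `Z v` children (the children of `v` are the words `i :: v` with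
`i < Z v`, the root is the empty word), `tree Z` is this tree as a graph, `GW ν` is the law under
which all the `Z v` are independent with law `ν`, and `pc G r` is the critical probability of
`r`-neighbour bootstrap percolation.
-/

namespace Pool.Agent.Results.MP_0cce6e_pr.MomentBound

open MeasureTheory ProbabilityTheory Pool.Agent.X136.GT

/-- For every `r ≥ 3` and `α ∈ (1, r - 1]` there is `c > 0` such that for every offspring law `ν`,
almost surely on the event that the tree is infinite,
`c (E ξ^{1+α})^{-1/α} ≤ p_c(T_ξ, r)` (an inequality in `[0, ∞]`). -/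
theorem result : ∀ r : ℕ, 3 ≤ r → ∀ a : ℝ, 1 < a → a ≤ (r : ℝ) - 1 → ∃ c : ℝ, 0 < c ∧
    ∀ ν : PMF ℕ, ∀ᵐ Z ∂GW ν, {u | InTree Z u}.Infinite →
      ENNReal.ofReal c * (∑' k : ℕ, ν k * (k : ENNReal) ^ (1 + a)) ^ (-1 / a) ≤
        ENNReal.ofReal (pc (tree Z) r) := by
  intro r hr a ha har
  exact ⟨((2 : ℝ) ^ (1 + a)) ^ (-1 / a), by positivity, fun ν =>
    pc_ge_moment ν (by omega) (by linarith) (by linarith)⟩

end Pool.Agent.Results.MP_0cce6e_pr.MomentBound
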